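import Mathlib

set_option autoImplicit false

/-! MP_c38931_co, project SO (sparsity of the orders of symmetric designs with a fixed-point-free
automorphism of every large prime order dividing `v`): statements of all modules.
Blueprint with the proofs: `/team-store/so_blueprint.md`. -/

open Finset

namespace Pool.Agent.Helper17.SO

/-! ## Basic notions -/

/-- the primes in `(u, w]` -/
def PP (u w : ℕ) : Finset ℕ := (Finset.Ioc u w).filter Nat.Prime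

/-- `log (log w / log u)` -/
noncomputable def LL (u w : ℕ) : ℝ := Real.log (Real.log w / Real.log u)

/-- `q` divides `k ^ 2 - k + lam` -/
def FD (lam q k : ℕ) : Prop := (q : ℤ) ∣ (k : ℤ) ^ 2 - k + lam

/-- symmetric design, blocks indexed by `Fin v` -/
structure SymD (v k lam : ℕ) (B : Fin v → Finset (Fin v)) : Prop where
  size : ∀ i, (B i).card = k
  pair : ∀ a b : Fin v, a ≠ b → (Finset.univ.filter (fun i => a ∈ B i ∧ b ∈ B i)).card = lam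

/-- the incidence matrix -/
def inc {v : ℕ} (B : Fin v → Finset (Fin v)) : Matrix (Fin v) (Fin v) ℤ :=
  Matrix.of fun a i => if a ∈ B i then 1 else 0

/-- the arithmetic conditions satisfied by `k`; `τ` is `(-1) ^ ((v - 1) / 2)` -/
def Arith (lam W : ℕ) (τ : ℤ) (k : ℕ) : Prop :=
  ∃ v n : ℕ, k = n + lam ∧ 1 ≤ n ∧ lam * v + k = k * k + lam ∧ Odd v ∧ τ = (-1) ^ ((v - 1) / 2) ∧
    (∀ q p : ℕ, q.Prime → p.Prime → W < q → lam < q → q ∣ v → p ≠ q → Odd (n.factorization p) →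
      ∀ f : ℕ, (p : ZMod q) ^ f ≠ -1) ∧
    (∀ p : ℕ, p.Prime → p ≠ 2 → ¬ p ∣ lam → n.factorization p = 1 → jacobiSym (τ * lam) p = 1)

/-- the last prime taken into account -/
def yT (I : ℕ) (T : Finset ℕ) (z : ℕ) : ℕ := if T.card = I then T.sup id else z

/-- the extra exponent -/
noncomputable def kap (lam : ℕ) : ℝ := by
  classical exact if IsSquare lam then 0 else 1 / 8

/-- condition for one root of `r ^ 2 - r + lam` to be bad -/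
def cond2 (lam l : ℕ) : Prop :=
  l % 4 = 1 ∧ jacobiSym (1 - 4 * (lam : ℤ)) l = 1 ∧ jacobiSym (lam : ℤ) l = -1

/-- condition for the class of `lam` to be bad -/
def cond3 (lam I : ℕ) (T : Finset ℕ) (τ : ℤ) (l : ℕ) : Prop :=
  jacobiSym (τ * lam) l = -1 ∨ (T.card = I ∧ ∃ q ∈ T, jacobiSym (l : ℤ) q = -1)

/-- lower bound for the number of forbidden classes mod `l` -/
noncomputable def gw (lam I : ℕ) (T : Finset ℕ) (τ : ℤ) (z l : ℕ) : ℝ := by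
  classical exact
    (if l ≤ yT I T z then 1 + (jacobiSym (1 - 4 * (lam : ℤ)) l : ℝ)
      else if cond2 lam l then 1 else 0) + (if cond3 lam I T τ l then 1 else 0)

/-! ## Block A: symmetric designs -/

/-- INC: elementary identities. -/
def ST_INC : Prop := ∀ (v k lam : ℕ) (B : Fin v → Finset (Fin v)), 1 ≤ lam → 1 ≤ k → k < v →
  SymD v k lam B →
  lam < k ∧ lam * v + k = k * k + lam ∧
  inc B * (inc B).transpose = ((k : ℤ) - lam) • (1 : Matrix (Fin v) (Fin v) ℤ) +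
    (lam : ℤ) • Matrix.of (fun _ _ => (1 : ℤ)) ∧
  (∀ a, ∑ i, inc B a i = k) ∧ (∀ i, ∑ a, inc B a i = k)

/-- SCH: Schutzenberger's theorem. -/
def ST_SCH : Prop := ∀ (v k n lam : ℕ) (A : Matrix (Fin v) (Fin v) ℤ), 1 ≤ n → 1 ≤ k →
  k * k = n + lam * v → Even v → 1 ≤ v →
  A * A.transpose = (n : ℤ) • (1 : Matrix (Fin v) (Fin v) ℤ) +
    (lam : ℤ) • Matrix.of (fun _ _ => (1 : ℤ)) →
  IsSquare n

/-- BPERM: the permutation of the blocks induced by a fixed-point-free automorphism. -/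
def ST_BPERM : Prop := ∀ (v k lam q : ℕ) (B : Fin v → Finset (Fin v)), 1 ≤ lam → 1 ≤ k → k < v →
  SymD v k lam B → q.Prime → lam < q → q ∣ v → ∀ g : Equiv.Perm (Fin v), g ^ q = 1 →
  (∀ a, g a ≠ a) → (∀ i, ∃ j, B j = (B i).image g) →
  ∃ π : Equiv.Perm (Fin v), π ^ q = 1 ∧ (∀ i, π i ≠ i) ∧ ∀ a i, g a ∈ B (π i) ↔ a ∈ B i

/-- CIRC: the determinant of the block-circulant matrix. -/
def ST_CIRC : Prop := ∀ (v n lam q : ℕ) (A : Matrix (Fin v) (Fin v) ℤ) (g π : Equiv.Perm (Fin v))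
  (ζ : ℂ), q.Prime → IsPrimitiveRoot ζ q → g ^ q = 1 → π ^ q = 1 → (∀ a, g a ≠ a) →
  (∀ i, π i ≠ i) → (∀ a i, A (g a) (π i) = A a i) →
  A * A.transpose = (n : ℤ) • (1 : Matrix (Fin v) (Fin v) ℤ) +
    (lam : ℤ) • Matrix.of (fun _ _ => (1 : ℤ)) →
  ∃ r : ℕ, v = q * r ∧ ∃ y ∈ Algebra.adjoin ℤ ({ζ} : Set ℂ),
    y * (starRingEnd ℂ) y = (n : ℂ) ^ r

/-- SELFC: norms and self-conjugate primes. -/
def ST_SELFC : Prop := ∀ (q p f N : ℕ) (ζ y : ℂ), q.Prime → q ≠ 2 → p.Prime → p ≠ q →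
  (p : ZMod q) ^ f = -1 → IsPrimitiveRoot ζ q → y ∈ Algebra.adjoin ℤ ({ζ} : Set ℂ) → 1 ≤ N →
  y * (starRingEnd ℂ) y = (N : ℂ) → Even (N.factorization p)

/-- BRC: the Bruck-Ryser theorem at a prime dividing `n` exactly once. -/
def ST_BRC : Prop := ∀ (v k n lam p : ℕ) (A : Matrix (Fin v) (Fin v) ℤ), 1 ≤ n → 1 ≤ k → Odd v →
  k * k = n + lam * v →
  A * A.transpose = (n : ℤ) • (1 : Matrix (Fin v) (Fin v) ℤ) +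
    (lam : ℤ) • Matrix.of (fun _ _ => (1 : ℤ)) →
  (∀ a, ∑ i, A a i = k) → (∀ i, ∑ a, A a i = k) →
  p.Prime → p ≠ 2 → ¬ p ∣ lam → n.factorization p = 1 →
  jacobiSym ((-1) ^ ((v - 1) / 2) * lam) p = 1

/-- DES: a design gives the arithmetic conditions. -/
def ST_DES : Prop := ∀ (lam W v k : ℕ) (B : Fin v → Finset (Fin v)), 1 ≤ lam → 1 ≤ k → k < v →
  SymD v k lam B →
  (∀ q : ℕ, q.Prime → W < q → q ∣ v → ∃ g : Equiv.Perm (Fin v), g ^ q = 1 ∧ (∀ a, g a ≠ a) ∧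
    ∀ i, ∃ j, B j = (B i).image g) →
  (∃ r : ℕ, k = r * r + lam) ∨ ∃ τ : ℤ, (τ = 1 ∨ τ = -1) ∧ Arith lam W τ k

/-- QRA: the first consequence. -/
def ST_QRA : Prop := ∀ (q p : ℕ), q.Prime → q ≠ 2 → p.Prime → p ≠ q →
  (∀ f : ℕ, (p : ZMod q) ^ f ≠ -1) → jacobiSym (p : ℤ) q = 1

/-- QRB: the second consequence. -/
def ST_QRB : Prop := ∀ (q m s k : ℕ), q.Prime → q % 4 = 1 → Squarefree s →
  (∀ p : ℕ, p.Prime → p ∣ s → p ≠ q → ∀ f : ℕ, (p : ZMod q) ^ f ≠ -1) →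
  ¬ q ∣ k → ((m ^ 2 * s : ℕ) : ZMod q) = (k : ZMod q) ^ 2 →
  jacobiSym ((k * m : ℕ) : ℤ) q = 1

/-! ## Block B: the sieve of Brun and Hooley -/

/-- BONA: Bonferroni for a set. -/
def ST_BONA : Prop := ∀ (H : Finset ℕ) (b : ℕ),
  (if H = ∅ then (1 : ℤ) else 0) ≤
    ∑ D ∈ H.powerset.filter (fun D => D.card ≤ 2 * b), (-1) ^ D.card

/-- BONB: Bonferroni with weights. -/
def ST_BONB : Prop := ∀ (P : Finset ℕ) (g : ℕ → ℝ) (b : ℕ), (∀ l ∈ P, 0 ≤ g l ∧ g l ≤ 1) →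
  ∑ D ∈ P.powerset.filter (fun D => D.card ≤ 2 * b), ∏ l ∈ D, (-g l) ≤
    ∏ l ∈ P, (1 - g l) + ∑ D ∈ P.powersetCard (2 * b + 1), ∏ l ∈ D, g l

/-- ESY: elementary symmetric sums. -/
def ST_ESY : Prop := ∀ (P : Finset ℕ) (g : ℕ → ℝ) (r : ℕ), (∀ l ∈ P, 0 ≤ g l) →
  ∑ D ∈ P.powersetCard r, ∏ l ∈ D, g l ≤ (∑ l ∈ P, g l) ^ r / (r.factorial : ℝ)

/-- CRTC: counting integers in classes modulo several primes. -/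
def ST_CRTC : Prop := ∀ (N : ℕ) (D : Finset ℕ) (Ω : (l : ℕ) → Finset (ZMod l)),
  (∀ l ∈ D, l.Prime) → ∀ S : Finset ℕ, (∀ t, t ∈ S ↔ t < N ∧ ∀ l ∈ D, (t : ZMod l) ∈ Ω l) →
  |(S.card : ℝ) - N * ∏ l ∈ D, (((Ω l).card : ℝ) / l)| ≤ ∏ l ∈ D, ((Ω l).card : ℝ)

/-- BH: the inequality of Brun and Hooley for a partition of the primes. -/
def ST_BH : Prop := ∀ (N J : ℕ) (P : ℕ → Finset ℕ) (b : ℕ → ℕ) (Ω : (l : ℕ) → Finset (ZMod l)),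
  (∀ j < J, ∀ l ∈ P j, l.Prime) → (∀ i < J, ∀ j < J, i ≠ j → Disjoint (P i) (P j)) →
  ∀ S : Finset ℕ, (∀ t ∈ S, t < N ∧ ∀ j < J, ∀ l ∈ P j, (t : ZMod l) ∉ Ω l) →
  (S.card : ℝ) ≤
    N * ∏ j ∈ range J, (∑ D ∈ (P j).powerset.filter (fun D => D.card ≤ 2 * b j),
      ∏ l ∈ D, (-(((Ω l).card : ℝ) / l))) +
    ∏ j ∈ range J, (∑ D ∈ (P j).powerset.filter (fun D => D.card ≤ 2 * b j),
      ∏ l ∈ D, ((Ω l).card : ℝ))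

/-- SIEVE: the upper bound. -/
def ST_SIEVE : Prop := ∃ (b : ℕ) (C : ℝ), 1 ≤ b ∧ 0 < C ∧
  ∀ (z N : ℕ) (P : Finset ℕ) (Ω : (l : ℕ) → Finset (ZMod l)), 2 ≤ z → z ^ b ≤ N →
  (∀ l ∈ P, l.Prime ∧ 7 ≤ l ∧ l ≤ z ∧ (Ω l).card ≤ 3) →
  ∀ S : Finset ℕ, (∀ t ∈ S, t < N ∧ ∀ l ∈ P, (t : ZMod l) ∉ Ω l) →
  (S.card : ℝ) ≤ C * N * Real.exp (-∑ l ∈ P, ((Ω l).card : ℝ) / l)

/-- SAP: the same in an arithmetic progression. -/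
def ST_SAP : Prop := ∃ (b : ℕ) (C : ℝ), 1 ≤ b ∧ 0 < C ∧
  ∀ (z X Q a : ℕ) (P : Finset ℕ) (Ω : (l : ℕ) → Finset (ZMod l)), 2 ≤ z → 1 ≤ Q → z ^ b * Q ≤ X →
  (∀ l ∈ P, l.Prime ∧ 7 ≤ l ∧ l ≤ z ∧ (Ω l).card ≤ 3 ∧ ¬ l ∣ Q) →
  ∀ S : Finset ℕ, (∀ k ∈ S, k ≤ X ∧ k % Q = a % Q ∧ ∀ l ∈ P, (k : ZMod l) ∉ Ω l) →
  (S.card : ℝ) ≤ C * ((X : ℝ) / Q) * Real.exp (-∑ l ∈ P, ((Ω l).card : ℝ) / l)

/-! ## Block C: sums over primes -/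

/-- MER: Mertens. -/
def ST_MER : Prop := ∃ C : ℝ, 0 ≤ C ∧ ∀ u w : ℕ, 2 ≤ u → u ≤ w →
  |∑ p ∈ PP u w, 1 / (p : ℝ) - LL u w| ≤ C

/-- PAP: Mertens in arithmetic progressions (constant depending on the modulus). -/
def ST_PAP : Prop := ∀ (q : ℕ) (a : ZMod q), 1 ≤ q → IsUnit a → ∃ C : ℝ, 0 ≤ C ∧
  ∀ u w : ℕ, 2 ≤ u → u ≤ w →
  |∑ p ∈ (PP u w).filter (fun p : ℕ => (p : ZMod q) = a), 1 / (p : ℝ) -
    LL u w / (q.totient : ℝ)| ≤ C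

/-- NSQ: a nonsquare has a Jacobi symbol equal to `-1`. -/
def ST_NSQ : Prop := ∀ a : ℤ, ¬ IsSquare a → ∃ b : ℕ, Odd b ∧ jacobiSym a b = -1

/-- LEG: sums of Legendre symbols over primes are bounded. -/
def ST_LEG : Prop := ∀ a : ℤ, ¬ IsSquare a → ∃ C : ℝ, 0 ≤ C ∧ ∀ u w : ℕ, 2 ≤ u → u ≤ w →
  |∑ p ∈ PP u w, (jacobiSym a p : ℝ) / p| ≤ C

/-- DENA: primes weighted with the number of roots. -/
def ST_DENA : Prop := ∀ lam : ℕ, 1 ≤ lam → ∃ C : ℝ, 0 ≤ C ∧ ∀ u w : ℕ, 2 ≤ u → u ≤ w →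
  LL u w - C ≤ ∑ p ∈ PP u w, (1 + (jacobiSym (1 - 4 * (lam : ℤ)) p : ℝ)) / p

/-- DENB: half of the primes. -/
def ST_DENB : Prop := ∀ a : ℤ, ¬ IsSquare a → ∃ C : ℝ, 0 ≤ C ∧ ∀ u w : ℕ, 2 ≤ u → u ≤ w →
  LL u w / 2 - C ≤ ∑ p ∈ (PP u w).filter (fun p => jacobiSym a p = -1), 1 / (p : ℝ)

/-- DENC: one eighth of the primes. -/
def ST_DENC : Prop := ∀ lam : ℕ, 1 ≤ lam → ¬ IsSquare lam → ∃ C : ℝ, 0 ≤ C ∧
  ∀ u w : ℕ, 2 ≤ u → u ≤ w →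
  LL u w / 8 - C ≤ ∑ p ∈ (PP u w).filter (fun p => p % 4 = 1 ∧
    jacobiSym (1 - 4 * (lam : ℤ)) p = 1 ∧ jacobiSym (lam : ℤ) p = -1), 1 / (p : ℝ)

/-- BTP: Brun-Titchmarsh for reciprocals. -/
def ST_BTP : Prop := ∃ C : ℝ, 0 ≤ C ∧ ∀ (u Q a : ℕ), 2 ≤ u → 1 ≤ Q → Q ^ 2 ≤ u → a.Coprime Q →
  ∑ p ∈ (PP u (u ^ 2)).filter (fun p => p % Q = a % Q), 1 / (p : ℝ) ≤ C / (Q.totient : ℝ)

/-- CLS: the number of classes. -/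
def ST_CLS : Prop := ∀ T : Finset ℕ, (∀ q ∈ T, q.Prime ∧ q ≠ 2) →
  2 ^ T.card * ((range (∏ q ∈ T, q)).filter (fun c : ℕ => ∀ q ∈ T, jacobiSym (c : ℤ) q = 1)).card ≤
    (∏ q ∈ T, q).totient

/-- BTI: primes which are squares modulo all the primes of `T`. -/
def ST_BTI : Prop := ∃ C : ℝ, 0 ≤ C ∧ ∀ (T : Finset ℕ) (u w : ℕ), (∀ q ∈ T, q.Prime ∧ q ≠ 2) →
  2 ≤ u → (∏ q ∈ T, q) ^ 2 ≤ u → u ≤ w →
  ∑ p ∈ (PP u w).filter (fun p : ℕ => ∀ q ∈ T, jacobiSym (p : ℤ) q = 1), 1 / (p : ℝ) ≤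
    C / 2 ^ T.card * (LL u w + 1)

/-! ## Block D: the count -/

/-- ROOT: the roots of `r ^ 2 - r + lam` modulo a prime. -/
def ST_ROOT : Prop := ∀ (lam l : ℕ) [Fact l.Prime], 1 ≤ lam → 4 * lam < l →
  ∀ R : Finset (ZMod l), (∀ r, r ∈ R ↔ r ^ 2 - r + lam = 0) →
  (R.card : ℤ) = 1 + jacobiSym (1 - 4 * (lam : ℤ)) l ∧ (lam : ZMod l) ∉ R ∧
  (cond2 lam l → ∀ m : ℕ, ¬ l ∣ m → ∃ r ∈ R, ¬ IsSquare (r * (m : ZMod l)))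

/-- RES: the number of residue classes modulo the product of the primes of `T`. -/
def ST_RES : Prop := ∀ (lam : ℕ) (T : Finset ℕ), (∀ q ∈ T, q.Prime) →
  ∀ R : Finset ℕ, (∀ a ∈ R, a < ∏ q ∈ T, q) → (∀ a ∈ R, ∀ q ∈ T, FD lam q a) →
  R.card ≤ 2 ^ T.card

/-- OME: the forbidden classes. -/
def ST_OME : Prop := ∀ (lam W w z m I : ℕ) (T : Finset ℕ) (τ : ℤ), 1 ≤ lam → W ≤ w →
  8 * lam + 7 ≤ w → 1 ≤ m → m ≤ w → T ⊆ PP w z → T.card ≤ I → (τ = 1 ∨ τ = -1) →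
  ∃ Ω : (l : ℕ) → Finset (ZMod l),
    (∀ l ∈ PP w z \ T, (Ω l).card ≤ 3 ∧ gw lam I T τ z l ≤ (Ω l).card) ∧
    ∀ k : ℕ, Arith lam W τ k → (∃ s, Squarefree s ∧ k = m ^ 2 * s + lam) →
      (∀ q ∈ T, FD lam q k) → (∀ l ∈ PP w (yT I T z), FD lam l k → l ∈ T) →
      ∀ l ∈ PP w z \ T, (k : ZMod l) ∉ Ω l

/-- LOW: the lower bound for the sum of the densities. -/
def ST_LOW : Prop := ∀ (lam : ℕ) (η : ℝ), 1 ≤ lam → 0 < η → ∃ (I : ℕ) (C : ℝ), 1 ≤ I ∧ 0 ≤ C ∧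
  ∀ (w z : ℕ) (T : Finset ℕ) (τ : ℤ), 8 * lam + 7 ≤ w → w ≤ z → T ⊆ PP w z → T.card ≤ I →
  (τ = 1 ∨ τ = -1) →
  (1 + kap lam - η) * LL w z - C ≤ ∑ l ∈ PP w z \ T, gw lam I T τ z l / l

/-- PERT: the bound for given `m` and `T`. -/
def ST_PERT : Prop := ∀ (lam : ℕ) (η : ℝ), 1 ≤ lam → 0 < η → ∃ (I A : ℕ) (C : ℝ),
  1 ≤ I ∧ 1 ≤ A ∧ 0 < C ∧
  ∀ (x W w z m : ℕ) (T : Finset ℕ), W ≤ w → 8 * lam + 7 ≤ w → w ≤ z → z ^ A ≤ x → 1 ≤ m →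
  m ≤ w → T ⊆ PP w z → T.card ≤ I →
  ∀ S : Finset ℕ, (∀ k ∈ S, k ≤ x ∧ (∃ τ : ℤ, (τ = 1 ∨ τ = -1) ∧ Arith lam W τ k) ∧
    (∃ s, Squarefree s ∧ k = m ^ 2 * s + lam) ∧ (∀ q ∈ T, FD lam q k) ∧
    (∀ l ∈ PP w (yT I T z), FD lam l k → l ∈ T)) →
  (S.card : ℝ) ≤ C * (∏ q ∈ T, (2 / (q : ℝ))) * ((x : ℝ) / (m : ℝ) ^ 2) *
    (Real.log w / Real.log z) ^ (1 + kap lam - η)

/-- TSET: the set of the first `I` prime factors. -/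
def ST_TSET : Prop := ∀ (lam w z I k : ℕ), 1 ≤ I → ∃ T : Finset ℕ, T ⊆ PP w z ∧ T.card ≤ I ∧
  (∀ q ∈ T, FD lam q k) ∧ ∀ l ∈ PP w (yT I T z), FD lam l k → l ∈ T

/-- SUMT: the sum over the sets `T`. -/
def ST_SUMT : Prop := ∃ C : ℝ, 0 ≤ C ∧ ∀ (w z I : ℕ), 2 ≤ w → w ≤ z →
  ∑ T ∈ (PP w z).powerset.filter (fun T => T.card ≤ I), ∏ q ∈ T, (2 / (q : ℝ)) ≤
    (C + 2 * LL w z) ^ I

/-- CNTZ: the count in terms of `w` and `z`. -/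
def ST_CNTZ : Prop := ∀ (lam : ℕ) (η : ℝ), 1 ≤ lam → 0 < η → ∃ (A : ℕ) (C : ℝ), 1 ≤ A ∧ 0 < C ∧
  ∀ (x W w z : ℕ), W ≤ w → 8 * lam + 7 ≤ w → w ≤ z → z ^ A ≤ x →
  ∀ S : Finset ℕ, (∀ k ∈ S, k ≤ x ∧ ∃ τ : ℤ, (τ = 1 ∨ τ = -1) ∧ Arith lam W τ k) →
  (S.card : ℝ) ≤ C * x * (Real.log w / Real.log z) ^ (1 + kap lam - η) + x / w

/-- CNT: the count. -/
def ST_CNT : Prop := ∀ (lam : ℕ) (ε : ℝ), 1 ≤ lam → 0 < ε → ∃ C : ℝ, 0 < C ∧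
  ∀ (x W : ℕ), 2 ≤ W → W ≤ x →
  ∀ S : Finset ℕ, (∀ k ∈ S, k ≤ x ∧ ∃ τ : ℤ, (τ = 1 ∨ τ = -1) ∧ Arith lam W τ k) →
  (S.card : ℝ) ≤ C * x * (Real.log W / Real.log x) ^ (1 + kap lam - ε)

/-- MAIN: the theorem. -/
def ST_MAIN : Prop := ∀ (lam : ℕ) (ε : ℝ), 1 ≤ lam → 0 < ε → ∃ C : ℝ, ∀ (x W : ℕ), 2 ≤ W → W ≤ x →
  ∀ S : Finset ℕ, (∀ k ∈ S, 1 ≤ k ∧ k ≤ x ∧ ∃ (v : ℕ) (B : Fin v → Finset (Fin v)), k < v ∧
    SymD v k lam B ∧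
    ∀ q : ℕ, q.Prime → W < q → q ∣ v → ∃ g : Equiv.Perm (Fin v), g ^ q = 1 ∧ (∀ a, g a ≠ a) ∧
      ∀ i, ∃ j, B j = (B i).image g) →
  (S.card : ℝ) ≤ C * x * (Real.log W / Real.log x) ^ (1 + kap lam - ε)

end Pool.Agent.Helper17.SO
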