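import Pool.Agent.Helper17.SO.Stmts

set_option autoImplicit false

open Finset

namespace Pool.Agent.Helper17.SO

theorem main_kap_le (lam : ℕ) : kap lam ≤ 1 / 8 ∧ 0 ≤ kap lam := by
  unfold kap
  split_ifs <;> constructor <;> norm_num

/-- the set of the `r * r + lam` is small -/
theorem main_squares (lam x : ℕ) (S : Finset ℕ)
    (hS : ∀ k ∈ S, k ≤ x ∧ ∃ r : ℕ, k = r * r + lam) : S.card ≤ Nat.sqrt x + 1 := by
  have h1 : S ⊆ (Finset.range (Nat.sqrt x + 1)).image (fun r => r * r + lam) := by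
    intro k hk
    obtain ⟨h2, r, h3⟩ := hS k hk
    rw [Finset.mem_image]
    refine ⟨r, Finset.mem_range.mpr ?_, h3.symm⟩
    have h4 : r * r ≤ x := by omega
    have := Nat.le_sqrt.mpr h4
    omega
  calc S.card ≤ ((Finset.range (Nat.sqrt x + 1)).image (fun r => r * r + lam)).card :=
        Finset.card_le_card h1
    _ ≤ (Finset.range (Nat.sqrt x + 1)).card := Finset.card_image_le
    _ = Nat.sqrt x + 1 := Finset.card_range _

/-- `sqrt x + 1` is at most a constant times the bound. -/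
theorem main_sqrt_le (e : ℝ) : ∃ C : ℝ, 0 ≤ C ∧ ∀ x W : ℕ, 2 ≤ W → W ≤ x →
    (Nat.sqrt x : ℝ) + 1 ≤ C * x * (Real.log W / Real.log x) ^ e := by
  -- `log x ≤ C' * x ^ δ`
  set E : ℝ := max e 0 with hE
  have hE0 : 0 ≤ E := le_max_right _ _
  -- the key bound: `(log x) ^ E ≤ K * sqrt x`
  have hlog2 : 0 < Real.log 2 := Real.log_pos (by norm_num)
  obtain ⟨K, hK0, hK⟩ : ∃ K : ℝ, 0 < K ∧ ∀ x : ℝ, 2 ≤ x → Real.log x ^ E ≤ K * x ^ (1 / 2 : ℝ) := by
    rcases eq_or_lt_of_le hE0 with h | h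
    · refine ⟨1, one_pos, fun x hx => ?_⟩
      rw [← h, Real.rpow_zero, one_mul]
      exact Real.one_le_rpow (by linarith) (by norm_num)
    · refine ⟨(2 * E) ^ E, Real.rpow_pos_of_pos (by linarith) _, fun x hx => ?_⟩
      have hx0 : 0 ≤ x := by linarith
      have hlx : 0 ≤ Real.log x := Real.log_nonneg (by linarith)
      have h1 : Real.log x ≤ x ^ (1 / (2 * E)) / (1 / (2 * E)) :=
        Real.log_le_rpow_div hx0 (by positivity)
      have h2 : x ^ (1 / (2 * E)) / (1 / (2 * E)) = (2 * E) * x ^ (1 / (2 * E)) := by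
        field_simp
      rw [h2] at h1
      calc Real.log x ^ E ≤ ((2 * E) * x ^ (1 / (2 * E))) ^ E :=
            Real.rpow_le_rpow hlx h1 hE0
        _ = (2 * E) ^ E * (x ^ (1 / (2 * E))) ^ E :=
            Real.mul_rpow (by linarith) (Real.rpow_nonneg hx0 _)
        _ = (2 * E) ^ E * x ^ (1 / 2 : ℝ) := by
            rw [← Real.rpow_mul hx0]
            congr 2
            field_simp
  refine ⟨2 * K / Real.log 2 ^ E, by positivity, fun x W hW hx => ?_⟩
  have hx2 : (2 : ℝ) ≤ x := by exact_mod_cast hW.trans hx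
  have hW2 : (2 : ℝ) ≤ W := by exact_mod_cast hW
  have hWx : (W : ℝ) ≤ x := by exact_mod_cast hx
  have hx0 : (0 : ℝ) < x := by linarith
  have hlx : 0 < Real.log x := Real.log_pos (by linarith)
  have hlW : Real.log 2 ≤ Real.log W := Real.log_le_log (by norm_num) hW2
  have hlWx : Real.log W ≤ Real.log x := Real.log_le_log (by linarith) hWx
  have h1 : (Nat.sqrt x : ℝ) ≤ (x : ℝ) ^ (1 / 2 : ℝ) := by
    rw [← Real.sqrt_eq_rpow]
    exact Real.nat_sqrt_le_real_sqrt
  have h2 : (1 : ℝ) ≤ (x : ℝ) ^ (1 / 2 : ℝ) := Real.one_le_rpow (by linarith) (by norm_num)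
  have h3 : (Real.log 2 / Real.log x) ^ E ≤ (Real.log W / Real.log x) ^ e := by
    have h4 : Real.log 2 / Real.log x ≤ Real.log W / Real.log x := by gcongr
    have h5 : Real.log W / Real.log x ≤ 1 := (div_le_one hlx).mpr hlWx
    have h6 : 0 < Real.log W / Real.log x := div_pos (by linarith) hlx
    calc (Real.log 2 / Real.log x) ^ E ≤ (Real.log W / Real.log x) ^ E :=
          Real.rpow_le_rpow (by positivity) h4 hE0
      _ ≤ (Real.log W / Real.log x) ^ e :=
          Real.rpow_le_rpow_of_exponent_ge h6 h5 (le_max_left _ _)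
  have h7 : (x : ℝ) ^ (1 / 2 : ℝ) * (x : ℝ) ^ (1 / 2 : ℝ) = x := by
    rw [← Real.rpow_add hx0]
    norm_num
  have h8 : 0 < Real.log x ^ E := Real.rpow_pos_of_pos hlx _
  have h9 : 0 < Real.log 2 ^ E := Real.rpow_pos_of_pos hlog2 _
  have h10 : (x : ℝ) ^ (1 / 2 : ℝ) ≤ K * x / Real.log x ^ E := by
    rw [le_div_iff₀ h8]
    calc (x : ℝ) ^ (1 / 2 : ℝ) * Real.log x ^ E
        ≤ (x : ℝ) ^ (1 / 2 : ℝ) * (K * (x : ℝ) ^ (1 / 2 : ℝ)) := by
          gcongr
          exact hK x hx2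
      _ = K * ((x : ℝ) ^ (1 / 2 : ℝ) * (x : ℝ) ^ (1 / 2 : ℝ)) := by ring
      _ = K * x := by rw [h7]
  calc (Nat.sqrt x : ℝ) + 1 ≤ 2 * (x : ℝ) ^ (1 / 2 : ℝ) := by linarith
    _ ≤ 2 * (K * x / Real.log x ^ E) := by gcongr
    _ = 2 * K / Real.log 2 ^ E * x * (Real.log 2 / Real.log x) ^ E := by
        rw [Real.div_rpow hlog2.le hlx.le]
        field_simp
    _ ≤ 2 * K / Real.log 2 ^ E * x * (Real.log W / Real.log x) ^ e := by gcongr

theorem st_MAIN (hD : ST_DES) (hC : ST_CNT) : ST_MAIN := by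
  classical
  intro lam ε hlam hε
  obtain ⟨C1, hC1, h1⟩ := hC lam ε hlam hε
  obtain ⟨C2, hC2, h2⟩ := main_sqrt_le (1 + kap lam - ε)
  refine ⟨C1 + C2, fun x W hW hx S hS => ?_⟩
  set S1 := S.filter (fun k => ∃ r : ℕ, k = r * r + lam) with hS1
  set S2 := S.filter (fun k => ¬ ∃ r : ℕ, k = r * r + lam) with hS2
  have hcard : S.card = S1.card + S2.card := (Finset.card_filter_add_card_filter_not _).symm
  have h3 : (S1.card : ℝ) ≤ (Nat.sqrt x : ℝ) + 1 := by
    have : S1.card ≤ Nat.sqrt x + 1 := main_squares lam x S1 (fun k hk => by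
      rw [hS1, Finset.mem_filter] at hk
      exact ⟨(hS k hk.1).2.1, hk.2⟩)
    exact_mod_cast this
  have h4 := h1 x W hW hx S2 (fun k hk => by
    rw [hS2, Finset.mem_filter] at hk
    obtain ⟨hk1, hk2, v, B, hk3, hk4, hk5⟩ := hS k hk.1
    refine ⟨hk2, ?_⟩
    rcases hD lam W v k B hlam hk1 hk3 hk4 hk5 with h | h
    · exact absurd h hk.2
    · exact h)
  have h5 := h2 x W hW hx
  rw [hcard]
  push_cast
  calc (S1.card : ℝ) + S2.card
      ≤ C2 * x * (Real.log W / Real.log x) ^ (1 + kap lam - ε) +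
        C1 * x * (Real.log W / Real.log x) ^ (1 + kap lam - ε) := by linarith
    _ = (C1 + C2) * x * (Real.log W / Real.log x) ^ (1 + kap lam - ε) := by ring

end Pool.Agent.Helper17.SO
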