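import Pool.Agent.Helper17.SO.Stmts

set_option autoImplicit false

open Finset

namespace Pool.Agent.Helper17.SO

theorem st_QRA : ST_QRA := by
  intro q p hq hq2 hp hpq hf
  have : Fact q.Prime := ⟨hq⟩
  have h0 : (p : ZMod q) ≠ 0 := by
    intro h
    rw [ZMod.natCast_eq_zero_iff] at h
    exact hpq ((Nat.prime_dvd_prime_iff_eq hq hp).mp h).symm
  have h0' : (((p : ℤ)) : ZMod q) ≠ 0 := by exact_mod_cast h0
  rw [← jacobiSym.legendreSym.to_jacobiSym]
  rcases legendreSym.eq_one_or_neg_one q h0' with h | h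
  · exact h
  · exfalso
    have h1 := legendreSym.eq_pow q (p : ℤ)
    rw [h] at h1
    refine hf (q / 2) ?_
    push_cast at h1
    exact h1.symm

end Pool.Agent.Helper17.SO
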