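import Pool.Agent.Helper15.SO.SELFC
import Pool.Agent.Helper17.SO.Main
import Pool.Agent.Helper17.SO.QRA
import Pool.Agent.Helper2.SO.PAP
import Pool.Agent.Helper24.SO.BRC
import Pool.Agent.Helper30.SO.ROOT
import Pool.Agent.Helper38.SO.BH
import Pool.Agent.Helper38.SO.Bon
import Pool.Agent.Helper38.SO.SAP
import Pool.Agent.Helper38.SO.Sieve
import Pool.Agent.Helper41.SO.BTP
import Pool.Agent.Helper41.SO.LOW
import Pool.Agent.Helper52.SO.DES
import Pool.Agent.Helper58.SO.PERT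
import Pool.Agent.Helper59.SO.CNTZ
import Pool.Agent.Helper61.SO.INC
import Pool.Agent.Helper61.SO.MER
import Pool.Agent.Helper67.SO.TSET
import Pool.Agent.Helper68.SO.CLS
import Pool.Agent.Helper7.SO.DENB
import Pool.Agent.Helper78.SO.DENA
import Pool.Agent.Helper8.SO.BTI
import Pool.Agent.Helper8.SO.LEG
import Pool.Agent.Helper81.SO.Crtc
import Pool.Agent.Helper81.SO.Denc
import Pool.Agent.Helper81.SO.Nsq
import Pool.Agent.Helper82.SO.QRB
import Pool.Agent.Helper82.SO.RES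
import Pool.Agent.Helper83.SO.SCH
import Pool.Agent.Helper85.SO.BPERM
import Pool.Agent.Helper94.SO.CIRC
import Pool.Agent.Helper94.SO.CNT
import Pool.Agent.Helper95.SO.OME

set_option autoImplicit false

open Finset

namespace Pool.Agent.Helper17.SO

theorem fin_LEG : ST_LEG := st_LEG Pool.Agent.Helper2.SO.st_PAP st_NSQ

theorem fin_SIEVE : ST_SIEVE := st_SIEVE (st_BH st_BONA st_CRTC) st_MER

theorem fin_SAP : ST_SAP := st_SAP fin_SIEVE

theorem fin_BTI : ST_BTI := st_BTI (st_BTP fin_SAP st_MER) st_CLS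

theorem fin_LOW : ST_LOW :=
  st_LOW st_MER (st_DENA st_MER fin_LEG) (st_DENB st_MER fin_LEG) (st_DENC st_MER fin_LEG) fin_BTI

theorem fin_PERT : ST_PERT := st_PERT fin_SAP (st_OME st_ROOT st_QRA st_QRB) fin_LOW st_RES

theorem fin_CNT : ST_CNT := st_CNT (st_CNTZ fin_PERT st_TSET (st_SUMT st_MER))

theorem fin_DES : ST_DES := st_DES st_INC st_SCH (st_BPERM st_INC) st_CIRC st_SELFC st_BRC

theorem fin_MAIN : ST_MAIN := st_MAIN fin_DES fin_CNT

/-- the final form -/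
theorem fin_main (lam : ℕ) (hlam : 1 ≤ lam) (e ε : ℝ)
    (he : e = 1 ∨ (e = 9 / 8 ∧ ¬ IsSquare lam)) (hε : 0 < ε) :
    ∃ C : ℝ, ∀ x W : ℕ, 2 ≤ W → W ≤ x → ∀ S : Finset ℕ,
      (∀ k ∈ S, 1 ≤ k ∧ k ≤ x ∧ ∃ (v : ℕ) (B : Fin v → Finset (Fin v)), k < v ∧
        (∀ i, (B i).card = k) ∧
        (∀ a b : Fin v, a ≠ b →
          (Finset.univ.filter (fun i => a ∈ B i ∧ b ∈ B i)).card = lam) ∧
        ∀ q : ℕ, q.Prime → W < q → q ∣ v → ∃ g : Equiv.Perm (Fin v), g ^ q = 1 ∧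
          (∀ a, g a ≠ a) ∧ ∀ i, ∃ j, B j = (B i).image g) →
      (S.card : ℝ) ≤ C * x * (Real.log W / Real.log x) ^ (e - ε) := by
  obtain ⟨C, hC⟩ := fin_MAIN lam ε hlam hε
  refine ⟨max C 0, fun x W hW hx S hS => ?_⟩
  have h1 := hC x W hW hx S (fun k hk => by
    obtain ⟨h1, h2, v, B, h3, h4, h5, h6⟩ := hS k hk
    exact ⟨h1, h2, v, B, h3, ⟨h4, h5⟩, h6⟩)
  have hW2 : (2 : ℝ) ≤ W := by exact_mod_cast hW
  have hWx : (W : ℝ) ≤ x := by exact_mod_cast hx
  have hlW : 0 < Real.log W := Real.log_pos (by linarith)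
  have hlx : 0 < Real.log x := Real.log_pos (by linarith)
  have hb0 : 0 < Real.log W / Real.log x := div_pos hlW hlx
  have hb1 : Real.log W / Real.log x ≤ 1 :=
    (div_le_one hlx).mpr (Real.log_le_log (by linarith) hWx)
  have hek : e - ε ≤ 1 + kap lam - ε := by
    rcases he with h | ⟨h, h'⟩
    · rw [h]
      linarith [(main_kap_le lam).2]
    · have : kap lam = 1 / 8 := by
        unfold kap
        rw [if_neg h']
      rw [h, this]
      linarith
  have h2 : (Real.log W / Real.log x) ^ (1 + kap lam - ε) ≤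
      (Real.log W / Real.log x) ^ (e - ε) :=
    Real.rpow_le_rpow_of_exponent_ge hb0 hb1 hek
  have h3 : (0 : ℝ) ≤ (Real.log W / Real.log x) ^ (1 + kap lam - ε) := Real.rpow_nonneg hb0.le _
  have hx0 : (0 : ℝ) ≤ x := by linarith
  calc (S.card : ℝ) ≤ C * x * (Real.log W / Real.log x) ^ (1 + kap lam - ε) := h1
    _ ≤ max C 0 * x * (Real.log W / Real.log x) ^ (1 + kap lam - ε) := by
        gcongr
        exact le_max_left _ _
    _ ≤ max C 0 * x * (Real.log W / Real.log x) ^ (e - ε) := by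
        have : (0 : ℝ) ≤ max C 0 := le_max_right _ _
        gcongr

end Pool.Agent.Helper17.SO
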